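import Pool.Agent.H84.SL.XGF

/-!
# MP_70ba79_ag: affine varieties with a generically finite morphism to a product of complements of
smooth plane curves
-/

set_option autoImplicit false

namespace Pool.Agent.H84.SL

open MvPolynomial SC Pool.Agent.H27.LV Pool.Agent.H84.SM Pool.Agent.H30.AX

/-- The coordinates of the affine variety with the ideal `P` are algebraic over the field generated
by the quotients `φ_i,j / φ_i,j'`: there are relations with coefficients which are polynomials in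
the `φ_i,j`, homogeneous in each group of variables, the leading coefficient is not `0`. So the map
to the product of projective planes is generically finite. -/
def GenFinP {k σ ι : Type} [Field k] [DecidableEq ι] (P : Ideal (MvPolynomial σ k))
    (φ : ι → Fin 3 → MvPolynomial σ k) : Prop :=
  ∀ s : σ, ∃ (m : ι → ℕ) (e : ℕ) (c : ℕ → MvPolynomial (ι × Fin 3) k), 1 ≤ e ∧
    (∀ l i, IsWeightedHomogeneous (fun p : ι × Fin 3 => if p.1 = i then 1 else 0) (c l) (m i)) ∧
    aeval (fun p : ι × Fin 3 => φ p.1 p.2) (c e) ∉ P ∧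
    ∑ l ∈ Finset.range (e + 1), aeval (fun p : ι × Fin 3 => φ p.1 p.2) (c l) * X s ^ l ∈ P

/-- XPR: Lang-Vojta for the affine varieties which are generically finite over a product of
complements of smooth plane curves, in no factor the image is contained in the curve `Ψ i = 0` -/
def T_XPR : Prop := ∀ (k : Type) [Field k] [IsAlgClosed k] [CharZero k] (ι : Type) [Fintype ι]
  [DecidableEq ι] [Nonempty ι] (G : ι → MvPolynomial (Fin 3) k) (d : ι → ℕ), (∀ i, 50 ≤ d i) →
  (∀ i, Smooth (G i) (d i)) → ∃ Ψ : ι → MvPolynomial (Fin 3) k,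
  (∀ i, Ψ i ≠ 0 ∧ ∃ N, (Ψ i).IsHomogeneous N) ∧
  ∀ (σ : Type) [Fintype σ] (P : Ideal (MvPolynomial σ k)) (φ : ι → Fin 3 → MvPolynomial σ k),
  P.IsPrime → (∀ i, (∃ j, φ i j ∉ P) ∧ aeval (φ i) (Ψ i) ∉ P) → GenFinP P φ →
  (∀ i, Ideal.span {aeval (φ i) (G i)} ⊔ P = Ideal.span (Set.range (φ i)) ^ d i ⊔ P) →
  ∃ (h : MvPolynomial σ k) (B : ℕ), h ∉ P ∧
    DegreeBound k (P : Set (MvPolynomial σ k)) h (fun χ => B * χ)

section

variable {k K : Type} [Field k] [Field K] [Algebra k K]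

/-- one factor -/
lemma fac1 (G : MvPolynomial (Fin 3) k) (d : ℕ) (hG : G.IsHomogeneous d) {σ : Type}
    (P : Ideal (MvPolynomial σ k)) (φ : Fin 3 → MvPolynomial σ k)
    (hunit : Ideal.span {aeval φ G} ⊔ P = Ideal.span (Set.range φ) ^ d ⊔ P) (S : Finset (DV k K))
    (z : σ → K) (hPz : ∀ p ∈ P, aeval z p = 0) (hreg : ∀ v, v ∉ S → ∀ j, 0 ≤ v.ord (z j))
    (Z : Fin 3 → K) (hZ : ∀ j, Z j = aeval z (φ j)) (hGz : aeval Z G ≠ 0) (j0 : Fin 3)
    (hZ0' : Z j0 ≠ 0) : Crv G d (fun j => (Z j0)⁻¹ * Z j) S := by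
  classical
  have hcomp : ∀ g : MvPolynomial (Fin 3) k, aeval z (aeval φ g) = aeval Z g := fun g => by
    have h : ((aeval z : MvPolynomial σ k →ₐ[k] K).comp (aeval φ)) = aeval Z := by
      refine MvPolynomial.algHom_ext fun i => ?_
      simp [hZ]
    rw [← h]
    rfl
  have hinv : ∀ N : ℕ, ((Z j0)⁻¹) ^ N ≠ 0 := fun N => pow_ne_zero _ (inv_ne_zero hZ0')
  obtain ⟨z', hz'⟩ : ∃ z' : Fin 3 → K, z' = fun j => (Z j0)⁻¹ * Z j := ⟨_, rfl⟩
  rw [← hz']
  have hform : ∀ (g : MvPolynomial (Fin 3) k) (N : ℕ), g.IsHomogeneous N →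
      aeval z' g = ((Z j0)⁻¹) ^ N * aeval Z g := fun g N hg => by
    rw [hz']
    exact Pool.Agent.H84.SM.aeval_smul_hom g N hg _ _
  have hone : z' j0 = 1 := by
    rw [hz']
    exact inv_mul_cancel₀ hZ0'
  refine ⟨⟨j0, hone⟩, ?_, ?_⟩
  · rw [hform G d hG]
    exact mul_ne_zero (hinv _) hGz
  intro v hv
  have hzv := hreg v hv
  obtain ⟨j1, hj1, hj1'⟩ := Finset.exists_min_image
    (Finset.univ.filter fun j => Z j ≠ 0) (fun j => v.ord (Z j))
    ⟨j0, Finset.mem_filter.2 ⟨Finset.mem_univ _, hZ0'⟩⟩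
  have hj1 : Z j1 ≠ 0 := (Finset.mem_filter.1 hj1).2
  have hle : ∀ j, ge v (v.ord (Z j1)) (Z j) := by
    intro j
    by_cases h0 : Z j = 0
    · exact Or.inl h0
    · exact Or.inr (hj1' j (Finset.mem_filter.2 ⟨Finset.mem_univ _, h0⟩))
  have hord : ∀ j, Z j ≠ 0 → v.ord (z' j) = -(v.ord (Z j0)) + v.ord (Z j) := by
    intro j hj
    rw [hz']
    change v.ord ((Z j0)⁻¹ * Z j) = _
    rw [v.ord_mul' (inv_ne_zero hZ0') hj, v.ord_inv]
  have hpole : (poleOrder v z' : ℤ) = v.ord (Z j0) - v.ord (Z j1) := by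
    have h0 := (hle j0).resolve_left hZ0'
    have hub : poleOrder v z' ≤ (v.ord (Z j0) - v.ord (Z j1)).toNat := by
      unfold poleOrder
      refine Finset.sup_le fun j _ => ?_
      by_cases hj : Z j = 0
      · have h1 : z' j = 0 := by rw [hz']; simp [hj]
        rw [h1, v.ord_zero]
        simp
      · have h1 := hord j hj
        have h2 := (hle j).resolve_left hj
        omega
    have hlb : (-(v.ord (z' j1))).toNat ≤ poleOrder v z' :=
      Finset.le_sup (f := fun i => (-(v.ord (z' i))).toNat) (Finset.mem_univ j1)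
    have h3 := hord j1 hj1
    omega
  have hI : Ideal.span (Set.range φ) ≤ ordIdeal v z hzv (v.ord (Z j1)) := by
    rw [Ideal.span_le]
    rintro _ ⟨j, rfl⟩
    have h := hle j
    rw [SetLike.mem_coe, mem_ordIdeal, ← hZ]
    exact h
  have hId : Ideal.span (Set.range φ) ^ d ⊔ P ≤ ordIdeal v z hzv (d * v.ord (Z j1)) := by
    refine sup_le ((Ideal.pow_right_mono hI d).trans (ordIdeal_pow v z hzv _ d)) ?_
    exact le_ordIdeal v z hzv (fun p hp => hPz p hp) _
  have h1 : (d : ℤ) * v.ord (Z j1) ≤ v.ord (aeval Z G) := by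
    have h2 : aeval φ G ∈ Ideal.span {aeval φ G} ⊔ P :=
      Ideal.mem_sup_left (Ideal.mem_span_singleton_self _)
    rw [hunit] at h2
    have h3 := hId h2
    rw [mem_ordIdeal, hcomp] at h3
    exact h3.resolve_left hGz
  have h2 : v.ord (aeval Z G) ≤ (d : ℤ) * v.ord (Z j1) := by
    have h3 : Ideal.span {aeval φ G} ⊔ P ≤ ordIdeal v z hzv (v.ord (aeval Z G)) := by
      refine sup_le ?_ (le_ordIdeal v z hzv (fun p hp => hPz p hp) _)
      rw [Ideal.span_le]
      rintro _ rfl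
      rw [SetLike.mem_coe, mem_ordIdeal, hcomp]
      exact ge_of_ord v
    have h4 : φ j1 ^ d ∈ Ideal.span {aeval φ G} ⊔ P := by
      rw [hunit]
      exact Ideal.mem_sup_left (Ideal.pow_mem_pow (Ideal.subset_span (Set.mem_range_self j1)) d)
    have h5 := h3 h4
    rw [mem_ordIdeal, map_pow, ← hZ] at h5
    have h7 := h5.resolve_left (pow_ne_zero _ hj1)
    rwa [v.ord_pow] at h7
  rw [hform G d hG, v.ord_mul' (hinv _) hGz, v.ord_pow, v.ord_inv, hpole]
  have h3 : v.ord (aeval Z G) = (d : ℤ) * v.ord (Z j1) := le_antisymm h2 h1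
  rw [h3]
  ring

/-- scaling in a group of variables -/
lemma aeval_grp {ι : Type} [Fintype ι] [DecidableEq ι] (m : ι → ℕ)
    (c : MvPolynomial (ι × Fin 3) k) (hc : ∀ i, IsWeightedHomogeneous
      (fun p : ι × Fin 3 => if p.1 = i then 1 else 0) c (m i)) (a : ι → K) (Z : ι × Fin 3 → K) :
    aeval (fun p => a p.1 * Z p) c = (∏ i, a i ^ m i) * aeval Z c := by
  rw [MvPolynomial.aeval_def, MvPolynomial.aeval_def, MvPolynomial.eval₂_eq',
    MvPolynomial.eval₂_eq', Finset.mul_sum]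
  refine Finset.sum_congr rfl fun f hf => ?_
  have h1 : ∀ i, ∑ p : ι × Fin 3, (if p.1 = i then f p else 0) = m i := by
    intro i
    have h2 := hc i (mem_support_iff.1 hf)
    rw [← h2, Finsupp.weight_apply, Finsupp.sum_fintype _ _ (by simp)]
    refine Finset.sum_congr rfl fun p _ => ?_
    split_ifs <;> simp
  have h3 : ∏ p : ι × Fin 3, (a p.1 * Z p) ^ f p =
      (∏ i, a i ^ m i) * ∏ p : ι × Fin 3, Z p ^ f p := by
    simp only [mul_pow]
    rw [Finset.prod_mul_distrib]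
    congr 1
    have h4 : ∀ i, a i ^ m i = ∏ p : ι × Fin 3, a i ^ (if p.1 = i then f p else 0) := by
      intro i
      rw [Finset.prod_pow_eq_pow_sum, h1]
    simp only [h4]
    rw [Finset.prod_comm]
    refine Finset.prod_congr rfl fun p _ => ?_
    rw [Finset.prod_eq_single p.1]
    · simp
    · intro i _ hi
      rw [if_neg (fun h => hi h.symm), pow_zero]
    · intro h
      exact absurd (Finset.mem_univ _) h
  rw [h3]
  ring

lemma hom_of_grp {ι : Type} [Fintype ι] [DecidableEq ι] (m : ι → ℕ)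
    (c : MvPolynomial (ι × Fin 3) k) (hc : ∀ i, IsWeightedHomogeneous
      (fun p : ι × Fin 3 => if p.1 = i then 1 else 0) c (m i)) : c.IsHomogeneous (∑ i, m i) := by
  intro f hf
  rw [Pi.one_def, Finsupp.weight_apply, Finsupp.sum_fintype _ _ (by simp)]
  have h1 : ∀ i, ∑ p : ι × Fin 3, (if p.1 = i then f p else 0) = m i := by
    intro i
    have h2 := hc i hf
    rw [← h2, Finsupp.weight_apply, Finsupp.sum_fintype _ _ (by simp)]
    refine Finset.sum_congr rfl fun p _ => ?_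
    split_ifs <;> simp
  simp only [← h1]
  rw [Finset.sum_comm]
  refine Finset.sum_congr rfl fun p _ => ?_
  simp

end

theorem pf_XPR (hFB : T_FB) (hDC3 : T_DC3) : T_XPR := by
  intro k _ _ _ ι _ _ _ G d hd hG
  classical
  have hFB' := fun i => hFB k (G i) (d i) (hd i) (hG i)
  choose B N Ψ hΨ hΨh hB using hFB'
  refine ⟨Ψ, fun i => ⟨hΨ i, N i, hΨh i⟩, ?_⟩
  intro σ _ P φ hP hdom hgen hunit
  have hGφ : ∀ i, aeval (φ i) (G i) ∉ P := by
    intro i h
    obtain ⟨j, hj⟩ := (hdom i).1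
    apply hj
    have h1 : φ i j ^ d i ∈ Ideal.span {aeval (φ i) (G i)} ⊔ P := by
      rw [hunit]
      exact Ideal.mem_sup_left
        (Ideal.pow_mem_pow (Ideal.subset_span (Set.mem_range_self j)) (d i))
    have h2 : Ideal.span {aeval (φ i) (G i)} ⊔ P ≤ P := by
      refine sup_le ?_ le_rfl
      rw [Ideal.span_le]
      rintro _ rfl
      exact h
    exact hP.mem_of_pow_mem (d i) (h2 h1)
  choose m e c he hc hlead hrel using hgen
  obtain ⟨n, ⟨ε⟩⟩ : ∃ n : ℕ, Nonempty (Fin (n + 1) ≃ ι × Fin 3) := by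
    refine ⟨Fintype.card (ι × Fin 3) - 1, ⟨(Fintype.equivFinOfCardEq ?_).symm⟩⟩
    have h := Fintype.card_pos (α := ι × Fin 3)
    omega
  refine ⟨(∏ i, (aeval (φ i) (G i) * aeval (φ i) (Ψ i))) *
    ∏ s, aeval (fun p : ι × Fin 3 => φ p.1 p.2) (c s (e s)),
    (∑ s, ∑ i, m s i) * ∑ i, B i, ?_, ?_⟩
  · refine hP.mul_notMem ?_ ?_
    · rw [Ideal.IsPrime.prod_mem_iff]
      push Not
      exact fun i _ => hP.mul_notMem (hGφ i) (hdom i).2
    · rw [Ideal.IsPrime.prod_mem_iff]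
      push Not
      exact fun s _ => hlead s
  intro K _ _ _ htr S z hPz hreg hnc hh D0 hD0
  rw [map_mul, map_prod, map_prod, mul_ne_zero_iff, Finset.prod_ne_zero_iff,
    Finset.prod_ne_zero_iff] at hh
  obtain ⟨hGΨ, hL⟩ := hh
  obtain ⟨Z, hZ⟩ : ∃ Z : ι → Fin 3 → K, Z = fun i j => aeval z (φ i j) := ⟨_, rfl⟩
  have hcomp : ∀ (i : ι) (g : MvPolynomial (Fin 3) k),
      aeval z (aeval (φ i) g) = aeval (Z i) g := fun i g => by
    have h : ((aeval z : MvPolynomial σ k →ₐ[k] K).comp (aeval (φ i))) = aeval (Z i) := by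
      refine MvPolynomial.algHom_ext fun j => ?_
      simp [hZ]
    rw [← h]
    rfl
  have hcompP : ∀ g : MvPolynomial (ι × Fin 3) k,
      aeval z (aeval (fun p : ι × Fin 3 => φ p.1 p.2) g) =
        aeval (fun p : ι × Fin 3 => Z p.1 p.2) g := fun g => by
    have h : ((aeval z : MvPolynomial σ k →ₐ[k] K).comp
        (aeval (fun p : ι × Fin 3 => φ p.1 p.2))) = aeval (fun p : ι × Fin 3 => Z p.1 p.2) := by
      refine MvPolynomial.algHom_ext fun j => ?_
      simp [hZ]
    rw [← h]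
    rfl
  have hGz : ∀ i, aeval (Z i) (G i) ≠ 0 := fun i => by
    have h := hGΨ i (Finset.mem_univ i)
    rw [map_mul, hcomp, hcomp] at h
    exact left_ne_zero_of_mul h
  have hΨz : ∀ i, aeval (Z i) (Ψ i) ≠ 0 := fun i => by
    have h := hGΨ i (Finset.mem_univ i)
    rw [map_mul, hcomp, hcomp] at h
    exact right_ne_zero_of_mul h
  have h0 : ∀ i, ∃ j, Z i j ≠ 0 := by
    intro i
    by_contra h
    push Not at h
    apply hGz i
    have h1 : Z i = fun j => (0 : K) * Z i j := by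
      funext j
      rw [h j, mul_zero]
    rw [h1, Pool.Agent.H84.SM.aeval_smul_hom (G i) (d i) (hG i).1,
      zero_pow (by have := hd i; omega), zero_mul]
  choose j0 hj0 using h0
  have hcrv : ∀ i, Crv (G i) (d i) (fun j => (Z i (j0 i))⁻¹ * Z i j) S := fun i =>
    fac1 (G i) (d i) (hG i).1 P (φ i) (hunit i) S z hPz hreg (Z i)
      (fun j => by rw [hZ]) (hGz i) (j0 i) (hj0 i)
  obtain ⟨zz, hzz⟩ : ∃ zz : ι × Fin 3 → K, zz = fun p => (Z p.1 (j0 p.1))⁻¹ * Z p.1 p.2 :=
    ⟨_, rfl⟩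
  obtain ⟨z', hz'⟩ : ∃ z' : Fin (n + 1) → K, z' = fun q => zz (ε q) := ⟨_, rfl⟩
  have hren : ∀ g : MvPolynomial (ι × Fin 3) k, aeval z' (rename ε.symm g) = aeval zz g := by
    intro g
    rw [aeval_rename]
    congr 2
    funext p
    simp [hz']
  have hinv : ∀ i (N : ℕ), ((Z i (j0 i))⁻¹) ^ N ≠ 0 := fun i N =>
    pow_ne_zero _ (inv_ne_zero (hj0 i))
  have hgrp : ∀ s l, aeval zz (c s l) = (∏ i, ((Z i (j0 i))⁻¹) ^ m s i) *
      aeval (fun p : ι × Fin 3 => Z p.1 p.2) (c s l) := by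
    intro s l
    rw [hzz]
    exact aeval_grp (m s) (c s l) (hc s l) (fun i => (Z i (j0 i))⁻¹) _
  obtain ⟨i1⟩ := (inferInstance : Nonempty ι)
  have hone : ∃ q, z' q = 1 := by
    refine ⟨ε.symm (i1, j0 i1), ?_⟩
    rw [hz']
    simp only [Equiv.apply_symm_apply, hzz]
    exact inv_mul_cancel₀ (hj0 i1)
  obtain ⟨hdeg, hconst⟩ := hDC3 k K htr σ n (fun s => ∑ i, m s i) e
    (fun s l => rename ε.symm (c s l)) z z' he
    (fun s l => (hom_of_grp (m s) (c s l) (hc s l)).rename_isHomogeneous) hone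
    (by
      intro s
      rw [hren, hgrp]
      refine mul_ne_zero (Finset.prod_ne_zero_iff.2 fun i _ => hinv i _) ?_
      rw [← hcompP]
      exact hL s (Finset.mem_univ s))
    (by
      intro s
      have h1 := hPz _ (hrel s)
      rw [map_sum] at h1
      have h2 : ∑ l ∈ Finset.range (e s + 1), aeval z' (rename ε.symm (c s l)) * z s ^ l =
          (∏ i, ((Z i (j0 i))⁻¹) ^ m s i) * ∑ l ∈ Finset.range (e s + 1),
            aeval z (aeval (fun p : ι × Fin 3 => φ p.1 p.2) (c s l) * X s ^ l) := by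
        rw [Finset.mul_sum]
        refine Finset.sum_congr rfl fun l _ => ?_
        rw [hren, hgrp, map_mul, map_pow, aeval_X, ← hcompP]
        ring
      rw [h2, h1, mul_zero])
  -- the degree of `z'`
  have hsum : deg k z' ≤ ∑ i, deg k (fun j => (Z i (j0 i))⁻¹ * Z i j) := by
    have h1 : ∀ v : DV k K, poleOrder v z' ≤
        ∑ i, poleOrder v (fun j => (Z i (j0 i))⁻¹ * Z i j) := by
      intro v
      unfold poleOrder
      refine Finset.sup_le fun q _ => ?_
      have h2 : (-(v.ord (z' q))).toNat ≤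
          Finset.univ.sup fun j => (-(v.ord ((Z (ε q).1 (j0 (ε q).1))⁻¹ * Z (ε q).1 j))).toNat := by
        rw [hz', hzz]
        exact Finset.le_sup
          (f := fun j => (-(v.ord ((Z (ε q).1 (j0 (ε q).1))⁻¹ * Z (ε q).1 j))).toNat)
          (Finset.mem_univ (ε q).2)
      exact h2.trans (Finset.single_le_sum (f := fun i => Finset.univ.sup fun j =>
        (-(v.ord ((Z i (j0 i))⁻¹ * Z i j))).toNat) (fun _ _ => Nat.zero_le _)
        (Finset.mem_univ (ε q).1))
    have hfin : ∀ i, (Function.support fun v : DV k K =>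
        poleOrder v (fun j => (Z i (j0 i))⁻¹ * Z i j)).Finite := fun i =>
      pfi k K htr (Fin 3) _
    unfold deg
    rw [← finsum_sum_comm _ _ (fun i _ => hfin i)]
    refine finsum_le_finsum' ?_ ?_ h1
    · exact pfi k K htr _ z'
    · refine (Set.finite_iUnion hfin).subset ?_
      intro v hv
      rw [Function.mem_support] at hv
      obtain ⟨i, -, hi⟩ := Finset.exists_ne_zero_of_sum_ne_zero hv
      exact Set.mem_iUnion.2 ⟨i, hi⟩
  -- the factors
  have hfac : ∀ i, (∃ j, (Z i (j0 i))⁻¹ * Z i j ∉ Set.range (algebraMap k K)) →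
      1 ≤ canDeg D0 + S.card ∧ deg k (fun j => (Z i (j0 i))⁻¹ * Z i j) ≤
        B i * (canDeg D0 + S.card) := fun i hi =>
    hB i K htr D0 hD0 _ S (hcrv i) (by
      rw [Pool.Agent.H84.SM.aeval_smul_hom (Ψ i) (N i) (hΨh i)]
      exact mul_ne_zero (hinv i _) (hΨz i)) hi
  have hex : ∃ i, ∃ j, (Z i (j0 i))⁻¹ * Z i j ∉ Set.range (algebraMap k K) := by
    by_contra hcon
    push Not at hcon
    obtain ⟨j, hj⟩ := hnc
    refine hj (hconst ?_ j)
    intro q
    rw [hz', hzz]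
    exact hcon (ε q).1 (ε q).2
  have hχ : 1 ≤ canDeg D0 + S.card := by
    obtain ⟨i, hi⟩ := hex
    exact (hfac i hi).1
  have hdi : ∀ i, (deg k (fun j => (Z i (j0 i))⁻¹ * Z i j) : ℤ) ≤
      B i * (canDeg D0 + S.card) := by
    intro i
    by_cases hi : ∃ j, (Z i (j0 i))⁻¹ * Z i j ∉ Set.range (algebraMap k K)
    · exact (hfac i hi).2
    · push Not at hi
      have h1 : deg k (fun j => (Z i (j0 i))⁻¹ * Z i j) = 0 := by
        unfold deg
        refine finsum_eq_zero_of_forall_eq_zero fun v => ?_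
        refine Nat.eq_zero_of_le_zero ?_
        unfold poleOrder
        refine Finset.sup_le fun j _ => ?_
        obtain ⟨a, ha⟩ := hi j
        change (-(v.ord ((Z i (j0 i))⁻¹ * Z i j))).toNat ≤ 0
        rw [← ha]
        rcases ge_const v a with h | h
        · rw [h, v.ord_zero]
          simp
        · omega
      rw [h1]
      push_cast
      exact mul_nonneg (Int.natCast_nonneg _) (by omega)
  have h1 : (deg k z : ℤ) ≤ ((∑ s, ∑ i, m s i : ℕ) : ℤ) * deg k z' := by exact_mod_cast hdeg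
  have h2 : (deg k z' : ℤ) ≤ ∑ i, (deg k (fun j => (Z i (j0 i))⁻¹ * Z i j) : ℤ) := by
    exact_mod_cast hsum
  have h3 : (deg k z' : ℤ) ≤ (∑ i, (B i : ℤ)) * (canDeg D0 + S.card) := by
    rw [Finset.sum_mul]
    exact h2.trans (Finset.sum_le_sum fun i _ => hdi i)
  calc (deg k z : ℤ) ≤ ((∑ s, ∑ i, m s i : ℕ) : ℤ) * deg k z' := h1
    _ ≤ ((∑ s, ∑ i, m s i : ℕ) : ℤ) * ((∑ i, (B i : ℤ)) * (canDeg D0 + S.card)) :=
        mul_le_mul_of_nonneg_left h3 (Int.natCast_nonneg _)
    _ = _ := by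
        push_cast
        ring

end Pool.Agent.H84.SL
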