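import Pool.Agent.H1.SL.P1
import Pool.Agent.H11.SL.TRC
import Pool.Agent.H11.SL.X1
import Pool.Agent.H13.SL.GNA
import Pool.Agent.H19.SL.FID
import Pool.Agent.H19.SL.FML
import Pool.Agent.H19.SL.GNL
import Pool.Agent.H19.SL.RES
import Pool.Agent.H26.SL.REG
import Pool.Agent.H32.SL.DGC
import Pool.Agent.H35.SL.DRP
import Pool.Agent.H39.SL.GZ
import Pool.Agent.H48.SL.DRV
import Pool.Agent.H48.SL.HNZ
import Pool.Agent.H48.SL.SMX
import Pool.Agent.H70.SL.BAD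
import Pool.Agent.H70.SL.RTF
import Pool.Agent.H78.SL.GZ1
import Pool.Agent.H79.SL.FB
import Pool.Agent.H79.SL.FBG
import Pool.Agent.H85.SL.EMB
import Pool.Agent.H88.SLG.GZ2
import Pool.Agent.H92.SL.LOC
import Pool.Agent.H92.SL.LRH
import Pool.Agent.H96.SL.CHR
import Pool.Agent.H98.SL.APX
import Pool.Agent.H84.SM.All
import Pool.Agent.H84.SL.XPR
import Pool.Agent.H30.AX.All

/-!
# MP_70ba79_ag: assembly of the board `slg_modules`
-/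

set_option autoImplicit false

namespace Pool.Agent.H84.SL.A

open Pool.Agent.H84.SM.A

theorem s_APX : T_APX := Pool.Agent.H98.SL.pf_APX 

theorem s_RTF : T_RTF := Pool.Agent.H70.SL.pf_RTF 

theorem s_BAD : T_BAD := Pool.Agent.H70.SL.pf_BAD s_RTF

theorem s_CHR : T_CHR := Pool.Agent.H96.SL.pf_CHR 

theorem s_DGC : T_DGC := Pool.Agent.H32.SL.pf_DGC 

theorem s_DRP : T_DRP := Pool.Agent.H35.SL.pf_DRP 

theorem s_DRV : T_DRV := Pool.Agent.H48.SL.pf_DRV 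

theorem s_EMB : T_EMB := Pool.Agent.H85.SL.pf_EMB s_CHR

theorem s_TRC : T_TRC := Pool.Agent.H11.SL.pf_TRC s_EMB

theorem s_LOC : T_LOC := Pool.Agent.H92.SL.pf_LOC s_TRC s_APX

theorem s_REG : T_REG := Pool.Agent.H26.SL.pf_REG s_LOC

theorem s_GZ1 : T_GZ1 := Pool.Agent.H78.SL.pf_GZ1 s_BAD s_REG s_DRP

theorem s_GZ2 : T_GZ2 := Pool.Agent.H88.SLG.GZ2.pf_GZ2 s_GZ1 s_DRP

theorem s_GZ : T_GZ := Pool.Agent.H39.SL.pf_GZ s_GZ2

theorem s_P1 : T_P1 := Pool.Agent.H1.SL.pf_P1 s_GZ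

theorem s_SMX : T_SMX := Pool.Agent.H48.SL.pf_SMX 

theorem s_GNA : T_GNA := Pool.Agent.H13.SL.pf_GNA s_SMX

theorem s_HNZ : T_HNZ := Pool.Agent.H48.SL.pf_HNZ 

theorem s_GNL : T_GNL := Pool.Agent.H19.SL.pf_GNL s_GNA s_DRV s_HNZ

theorem s_FML : T_FML := Pool.Agent.H19.SL.pf_FML s_GNL

theorem s_X1 : T_X1 := Pool.Agent.H11.SL.pf_X1 s_P1 s_FML

theorem s_RES : T_RES := Pool.Agent.H19.SL.pf_RES 

theorem s_FID : T_FID := Pool.Agent.H19.SL.pf_FID s_RES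

theorem s_LRH : T_LRH := Pool.Agent.H92.SL.pf_LRH s_RES s_FID

theorem s_FB : T_FB := Pool.Agent.H79.SL.pf_FB s_X1 s_DGC s_LRH a_MAIN a_PRM

theorem s_FBG : T_FBG := Pool.Agent.H79.SL.pf_FBG s_FB

theorem s_XPR : T_XPR := pf_XPR s_FB Pool.Agent.H30.AX.tDC3

end Pool.Agent.H84.SL.A
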