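import Pool.Agent.H84.SM.Targets2
import Pool.Agent.H27.LV.Curve

/-!
# MP_70ba79_ag: targets of the board `slg_modules` (degree of the map, exceptional curves)

Function fields of genus zero are rational; finitely many curves which are not of log general type
in the complement of a smooth plane curve; logarithmic Riemann-Hurwitz formula.
-/

set_option autoImplicit false

namespace Pool.Agent.H84.SL

open MvPolynomial SC Pool.Agent.H27.LV Pool.Agent.H84.SM
open Pool.Agent.H92.OD (HS cf sg uu Lat geO IsO DF)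

/-! ### Definitions -/

section Defs

variable {k K : Type} [Field k] [Field K] [Algebra k K]

/-- the trace over the field `F`, as an element of `K` -/
noncomputable def tr (F : IntermediateField k K) (z : K) : K :=
  algebraMap F K (Algebra.trace F K z)

/-- functions with poles bounded by the divisor `E` -/
def LE (k : Type) {K : Type} [Field k] [Field K] [Algebra k K] (E : DV k K → ℤ) :
    Submodule k K where
  carrier := {z | ∀ v : DV k K, ge v (-(E v)) z}
  add_mem' h1 h2 := fun v => (h1 v).add (h2 v)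
  zero_mem' := fun v => ge_zero v _
  smul_mem' c z hz := fun v => by
    have h := (ge_const v c).mul (hz v)
    rw [zero_add] at h
    rw [Algebra.smul_def]
    exact h

/-- the divisor of poles of `t` -/
def pol (k : Type) {K : Type} [Field k] [Field K] [Algebra k K] (t : K) (v : DV k K) : ℤ :=
  max 0 (-(v.ord t))

/-- a basis of `K` over `F = k(t)` adapted to the poles of `t` -/
structure Adp (t : K) (F : IntermediateField k K) (n : ℕ) (b : Module.Basis (Fin n) F K)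
    (r : Fin n → ℕ) : Prop where
  pl : ∀ j, b j ∈ LE k (fun v => (r j : ℤ) * pol k t v)
  fin : ∀ z : K, (∀ v : DV k K, 0 ≤ v.ord t → ge v 0 z) →
    ∀ (j : Fin n) (v : DV k K), 0 ≤ v.ord t → ge v 0 (algebraMap F K (b.repr z j))
  inf : ∀ z : K, (∀ v : DV k K, v.ord t < 0 → ge v 0 z) →
    ∀ (j : Fin n) (v : DV k K), v.ord t < 0 → ge v 0 (algebraMap F K (b.repr z j) * t ^ r j)

/-- coefficientwise application of a map `δ` -/
noncomputable def pd {L M : Type} [Field L] [Field M] (δ : L → M) (A : Polynomial L) :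
    Polynomial M := ∑ j ∈ Finset.range (A.natDegree + 1), Polynomial.monomial j (δ (A.coeff j))

/-- ramification index of `v` over `w` (`0` if `v` does not lie over `w`) -/
noncomputable def rho {K0 : Type} [Field K0] [Algebra k K0] (ι : K0 →ₐ[k] K) (v : DV k K)
    (w : DV k K0) : ℕ := by
  classical
  exact if ∃ e : ℕ, 0 < e ∧ ∀ z, v.ord (ι z) = e * w.ord z then (v.ord (ι w.unif)).toNat else 0

end Defs

/-! ### Traces -/

/-- CHR: the automorphisms of the Hahn series given by a root of unity -/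
def T_CHR : Prop := ∀ (k : Type) [Field k] [IsAlgClosed k] [CharZero k] (e : ℕ) (ζ : k), 0 < e →
  ζ ^ e = 1 → ∃ (σ : HS k →+* HS k) (χ : ℚ → k), (∀ y r, cf (σ y) r = χ r * cf y r) ∧
  ∀ (m : ℤ) (r : ℚ), r * e = m → χ r = ζ ^ m

/-- EMB: the trace in the Hahn series at the zeros of `u` -/
def T_EMB : Prop := ∀ (k K : Type) [Field k] [IsAlgClosed k] [CharZero k] [Field K] [Algebra k K]
  [Algebra.EssFiniteType k K], Algebra.trdeg k K = 1 → ∀ (D : Derivation k K K), D ≠ 0 →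
  ∀ (u : K) (F : IntermediateField k K), Transcendental k u →
  F = IntermediateField.adjoin k {u} → ∃ φ : DV k K → (K →ₐ[k] HS k), (∀ v, 0 < v.ord u →
    φ v u = uu k ∧ (∀ z, Lat (v.ord u).toNat (φ v z)) ∧
    ∀ z, z ≠ 0 → IsO (φ v z) ((v.ord z : ℚ) / (v.ord u : ℚ))) ∧
  ∀ (z : K) (v : DV k K), 0 < v.ord u →
    (∀ m : ℤ, cf (φ v (tr F z)) (m : ℚ) =
      ∑ᶠ w : DV k K, ((max 0 (w.ord u) : ℤ) : k) * cf (φ w z) (m : ℚ)) ∧
    ∀ r : ℚ, (¬∃ m : ℤ, r = (m : ℚ)) → cf (φ v (tr F z)) r = 0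

/-- TRC: the value of the trace at a zero of `u` -/
def T_TRC : Prop := ∀ (k K : Type) [Field k] [IsAlgClosed k] [CharZero k] [Field K] [Algebra k K]
  [Algebra.EssFiniteType k K], Algebra.trdeg k K = 1 → ∀ (D : Derivation k K K), D ≠ 0 →
  ∀ (u : K) (F : IntermediateField k K), Transcendental k u →
  F = IntermediateField.adjoin k {u} → ∀ (z : K) (c : DV k K → k),
  (∀ v : DV k K, 0 < v.ord u → ge v 1 (z - algebraMap k K (c v))) →
  ∀ w : DV k K, 0 < w.ord u →
    ge w 1 (tr F z - algebraMap k K (∑ᶠ v : DV k K, ((max 0 (v.ord u) : ℤ) : k) * c v))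

/-- APX: weak approximation -/
def T_APX : Prop := ∀ (k K : Type) [Field k] [IsAlgClosed k] [CharZero k] [Field K] [Algebra k K]
  [Algebra.EssFiniteType k K], Algebra.trdeg k K = 1 → ∀ (s : Finset (DV k K)) (m : DV k K → ℤ),
  ∃ z : K, z ≠ 0 ∧ ∀ v ∈ s, v.ord z = m v

/-- LOC: the local different -/
def T_LOC : Prop := ∀ (k K : Type) [Field k] [IsAlgClosed k] [CharZero k] [Field K] [Algebra k K]
  [Algebra.EssFiniteType k K], Algebra.trdeg k K = 1 → ∀ (D : Derivation k K K), D ≠ 0 →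
  ∀ (u : K) (F : IntermediateField k K), Transcendental k u →
  F = IntermediateField.adjoin k {u} → ∀ ω : K,
  (∀ z : K, (∀ v : DV k K, 0 < v.ord u → ge v 0 z) →
    ∀ w : DV k K, 0 < w.ord u → ge w 0 (tr F (ω * z))) →
  ∀ v : DV k K, 0 < v.ord u → ge v (1 - v.ord u) ω

/-- RTF: elements of `k(u)` at the zeros of `u` -/
def T_RTF : Prop := ∀ (k K : Type) [Field k] [IsAlgClosed k] [CharZero k] [Field K] [Algebra k K]
  [Algebra.EssFiniteType k K], Algebra.trdeg k K = 1 → ∀ (u : K), Transcendental k u →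
  ∀ f ∈ IntermediateField.adjoin k {u}, f ≠ 0 → ∃ (o : ℤ) (a : k), a ≠ 0 ∧
  ∀ v : DV k K, 0 < v.ord u → ge v (v.ord u) (f * u ^ (-o) - algebraMap k K a)

/-- BAD: adapted bases exist -/
def T_BAD : Prop := ∀ (k K : Type) [Field k] [IsAlgClosed k] [CharZero k] [Field K] [Algebra k K]
  [Algebra.EssFiniteType k K], Algebra.trdeg k K = 1 → ∀ (t : K) (F : IntermediateField k K),
  Transcendental k t → F = IntermediateField.adjoin k {t} →
  ∃ (n : ℕ) (b : Module.Basis (Fin n) F K) (r : Fin n → ℕ), Adp t F n b r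

/-- REG: regular differentials from an adapted basis -/
def T_REG : Prop := ∀ (k K : Type) [Field k] [IsAlgClosed k] [CharZero k] [Field K] [Algebra k K]
  [Algebra.EssFiniteType k K], Algebra.trdeg k K = 1 → ∀ (D : Derivation k K K), D ≠ 0 →
  ∀ (t : K) (F : IntermediateField k K), Transcendental k t →
  F = IntermediateField.adjoin k {t} → ∀ (n : ℕ) (b : Module.Basis (Fin n) F K) (r : Fin n → ℕ),
  Adp t F n b r → ∀ j, 2 ≤ r j → 0 ≤ canDeg D

/-! ### Genus zero -/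

/-- GZ1: many functions with poles bounded by the poles of `t` -/
def T_GZ1 : Prop := ∀ (k K : Type) [Field k] [IsAlgClosed k] [CharZero k] [Field K] [Algebra k K]
  [Algebra.EssFiniteType k K], Algebra.trdeg k K = 1 → ∀ (D : Derivation k K K), D ≠ 0 →
  canDeg D < 0 → ∀ t : K, Transcendental k t →
  (∑ᶠ v : DV k K, pol k t v) + 1 ≤ Module.finrank k (LE k (pol k t))

/-- DRP: spaces of functions with bounded poles -/
def T_DRP : Prop := ∀ (k K : Type) [Field k] [IsAlgClosed k] [CharZero k] [Field K] [Algebra k K]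
  [Algebra.EssFiniteType k K], Algebra.trdeg k K = 1 → ∀ (E : DV k K → ℤ),
  {v | E v ≠ 0}.Finite → Module.Finite k (LE k E) ∧ ∀ v : DV k K, ∀ E' : DV k K → ℤ,
  E' v = E v - 1 → (∀ w, w ≠ v → E' w = E w) →
  Module.finrank k (LE k E) ≤ Module.finrank k (LE k E') + 1

/-- GZ2: functions with one simple pole -/
def T_GZ2 : Prop := ∀ (k K : Type) [Field k] [IsAlgClosed k] [CharZero k] [Field K] [Algebra k K]
  [Algebra.EssFiniteType k K], Algebra.trdeg k K = 1 → ∀ (D : Derivation k K K), D ≠ 0 →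
  canDeg D < 0 → ∀ P : DV k K, ∃ f : K, P.ord f = -1 ∧ ∀ v : DV k K, v ≠ P → ge v 0 f

/-- GZ: a function field of genus zero is rational -/
def T_GZ : Prop := ∀ (k K : Type) [Field k] [IsAlgClosed k] [CharZero k] [Field K] [Algebra k K]
  [Algebra.EssFiniteType k K], Algebra.trdeg k K = 1 → ∀ (D : Derivation k K K), D ≠ 0 →
  canDeg D < 0 → ∀ P : DV k K, ∃ f : K, P.ord f = -1 ∧ (∀ v : DV k K, v ≠ P → ge v 0 f) ∧
  Transcendental k f ∧ IntermediateField.adjoin k {f} = ⊤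

/-! ### Curves which are not of log general type -/

/-- P1: parametrisation by polynomials -/
def T_P1 : Prop := ∀ (k : Type) [Field k] [IsAlgClosed k] [CharZero k]
  (G : MvPolynomial (Fin 3) k) (d : ℕ), 1 ≤ d → Smooth G d →
  ∀ (K : Type) [Field K] [Algebra k K] [Algebra.EssFiniteType k K], Algebra.trdeg k K = 1 →
  ∀ (D : Derivation k K K), D ≠ 0 → ∀ (x : Fin 3 → K) (S : Finset (DV k K)), Prim k x →
  Crv G d x S → canDeg D + S.card ≤ 0 → ∃ (p : Fin 3 → Polynomial k) (t z : K) (c : k) (m : ℕ),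
  z ≠ 0 ∧ c ≠ 0 ∧ (∀ i, x i = z * Polynomial.aeval t (p i)) ∧ 1 ≤ deg k x ∧
  (∀ i, (p i).natDegree ≤ deg k x) ∧ (∃ i, (p i).coeff (deg k x) ≠ 0) ∧
  (∃ i, (p i).coeff 0 ≠ 0) ∧ aeval p G = Polynomial.C c * Polynomial.X ^ m

/-- SMX: smoothness over extension fields -/
def T_SMX : Prop := ∀ (k : Type) [Field k] [IsAlgClosed k] [CharZero k]
  (G : MvPolynomial (Fin 3) k) (d : ℕ), 1 ≤ d → Smooth G d →
  ∀ (L : Type) [Field L] [Algebra k L] (a : Fin 3 → L), (∀ i, aeval a (pderiv i G) = 0) → a = 0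

/-- GNA: divisibility of the determinant of a family of curves at a point of `C` -/
def T_GNA : Prop := ∀ (k : Type) [Field k] [IsAlgClosed k] [CharZero k]
  (G : MvPolynomial (Fin 3) k) (d : ℕ), 1 ≤ d → Smooth G d →
  ∀ (L M : Type) [Field L] [Algebra k L] [Field M] [Algebra L M] [Algebra k M]
  [IsScalarTower k L M] (δ : Derivation k L M) (P : Fin 3 → Polynomial L) (c : L) (m : ℕ),
  c ≠ 0 → (∃ i, (P i).coeff 0 ≠ 0) → aeval P G = Polynomial.C c * Polynomial.X ^ m →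
  Polynomial.X ^ m ∣ dt (fun i => (P i).map (algebraMap L M)) (fun i => pd δ (P i))
    (fun i => Polynomial.X * (Polynomial.derivative (P i)).map (algebraMap L M))

/-- DRV: derivations for two algebraically independent elements -/
def T_DRV : Prop := ∀ (k F : Type) [Field k] [CharZero k] [Field F] [Algebra k F] (X Y : F),
  AlgebraicIndependent k ![X, Y] → ∃ Δ : Derivation k F F, Δ X = 0 ∧ Δ Y ≠ 0

/-- HNZ: homogeneous relations -/
def T_HNZ : Prop := ∀ (k F : Type) [Field k] [Field F] [Algebra k F] (p : Fin 3 → F),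
  (∀ (N : ℕ) (Ψ : MvPolynomial (Fin 3) k), Ψ ≠ 0 → Ψ.IsHomogeneous N → aeval p Ψ ≠ 0) →
  ∀ i j l : Fin 3, i ≠ j → i ≠ l → j ≠ l → AlgebraicIndependent k ![p j / p i, p l / p i]

/-- GNL: a family of curves `G(P(T)) = c T ^ m` does not move -/
def T_GNL : Prop := ∀ (k : Type) [Field k] [IsAlgClosed k] [CharZero k]
  (G : MvPolynomial (Fin 3) k) (d : ℕ), 4 ≤ d → Smooth G d →
  ∀ (L : Type) [Field L] [Algebra k L] (P : Fin 3 → Polynomial L) (c : L) (m e : ℕ),
  c ≠ 0 → 1 ≤ e → (∀ i, (P i).natDegree ≤ e) → (∃ i, (P i).coeff e ≠ 0) →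
  (∃ i, (P i).coeff 0 ≠ 0) → aeval P G = Polynomial.C c * Polynomial.X ^ m →
  ∃ (N : ℕ) (Ψ : MvPolynomial (Fin 3) k), Ψ ≠ 0 ∧ Ψ.IsHomogeneous N ∧ aeval P Ψ = 0

/-- FML: finitely many families -/
def T_FML : Prop := ∀ (k : Type) [Field k] [IsAlgClosed k] [CharZero k]
  (G : MvPolynomial (Fin 3) k) (d : ℕ), 4 ≤ d → Smooth G d → ∀ e m : ℕ, 1 ≤ e →
  ∃ (N : ℕ) (Ψ : MvPolynomial (Fin 3) k), Ψ ≠ 0 ∧ Ψ.IsHomogeneous N ∧
  ∀ (p : Fin 3 → Polynomial k) (c : k), c ≠ 0 → (∀ i, (p i).natDegree ≤ e) →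
  (∃ i, (p i).coeff e ≠ 0) → (∃ i, (p i).coeff 0 ≠ 0) →
  aeval p G = Polynomial.C c * Polynomial.X ^ m → aeval p Ψ = 0

/-- X1: the curves of bounded degree which are not of log general type -/
def T_X1 : Prop := ∀ (k : Type) [Field k] [IsAlgClosed k] [CharZero k]
  (G : MvPolynomial (Fin 3) k) (d : ℕ), 4 ≤ d → Smooth G d → ∀ e0 : ℕ,
  ∃ (N : ℕ) (Ψ : MvPolynomial (Fin 3) k), Ψ ≠ 0 ∧ Ψ.IsHomogeneous N ∧
  ∀ (K : Type) [Field K] [Algebra k K] [Algebra.EssFiniteType k K], Algebra.trdeg k K = 1 →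
  ∀ (D : Derivation k K K), D ≠ 0 → ∀ (x : Fin 3 → K) (S : Finset (DV k K)), Prim k x →
  Crv G d x S → deg k x ≤ e0 → canDeg D + S.card ≤ 0 → aeval x Ψ = 0

/-! ### Degrees and coverings -/

/-- DGC: degree of a primitive parametrisation -/
def T_DGC : Prop := ∀ (k K : Type) [Field k] [IsAlgClosed k] [CharZero k] [Field K] [Algebra k K]
  [Algebra.EssFiniteType k K], Algebra.trdeg k K = 1 → ∀ x : Fin 3 → K, Prim k x →
  (∃ j, x j = 1) → ∀ (N : ℕ) (Φ : MvPolynomial (Fin 3) k), Φ ≠ 0 → Φ.IsHomogeneous N →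
  aeval x Φ = 0 → deg k x ≤ N

/-- RES: restriction of places -/
def T_RES : Prop := ∀ (k K0 K : Type) [Field k] [IsAlgClosed k] [CharZero k] [Field K0]
  [Algebra k K0] [Algebra.EssFiniteType k K0] [Field K] [Algebra k K] [Algebra.EssFiniteType k K]
  (ι : K0 →ₐ[k] K), Algebra.trdeg k K0 = 1 → Algebra.trdeg k K = 1 → ∀ v : DV k K,
  ∃ (w : DV k K0) (e : ℕ), 0 < e ∧ ∀ z, v.ord (ι z) = e * w.ord z

/-- FID: the fundamental identity -/
def T_FID : Prop := ∀ (k K0 K : Type) [Field k] [IsAlgClosed k] [CharZero k] [Field K0]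
  [Algebra k K0] [Algebra.EssFiniteType k K0] [Field K] [Algebra k K] [Algebra.EssFiniteType k K]
  (ι : K0 →ₐ[k] K), Algebra.trdeg k K0 = 1 → Algebra.trdeg k K = 1 → ∃ N : ℕ, 1 ≤ N ∧
  ∀ w : DV k K0, {v : DV k K | rho ι v w ≠ 0}.Finite ∧ ∑ᶠ v : DV k K, rho ι v w = N

/-- LRH: logarithmic Riemann-Hurwitz inequality, degrees -/
def T_LRH : Prop := ∀ (k K0 K : Type) [Field k] [IsAlgClosed k] [CharZero k] [Field K0]
  [Algebra k K0] [Algebra.EssFiniteType k K0] [Field K] [Algebra k K] [Algebra.EssFiniteType k K]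
  (ι : K0 →ₐ[k] K), Algebra.trdeg k K0 = 1 → Algebra.trdeg k K = 1 →
  ∀ (D0 : Derivation k K0 K0) (D : Derivation k K K), D0 ≠ 0 → D ≠ 0 → ∃ N : ℕ, 1 ≤ N ∧
  (∀ x : Fin 3 → K0, deg k (fun i => ι (x i)) = N * deg k x) ∧
  ∀ (S0 : Finset (DV k K0)) (S : Finset (DV k K)),
  (∀ w ∈ S0, ∀ (v : DV k K) (e : ℕ), 0 < e → (∀ z, v.ord (ι z) = e * w.ord z) → v ∈ S) →
  (N : ℤ) * (canDeg D0 + S0.card) ≤ canDeg D + S.card

/-! ### Final statements -/

/-- FB: the degree of a map from a curve to the complement of a smooth plane curve -/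
def T_FB : Prop := ∀ (k : Type) [Field k] [IsAlgClosed k] [CharZero k]
  (G : MvPolynomial (Fin 3) k) (d : ℕ), 50 ≤ d → Smooth G d → ∃ (B N : ℕ)
  (Ψ : MvPolynomial (Fin 3) k), Ψ ≠ 0 ∧ Ψ.IsHomogeneous N ∧
  ∀ (K : Type) [Field K] [Algebra k K] [Algebra.EssFiniteType k K], Algebra.trdeg k K = 1 →
  ∀ (D : Derivation k K K), D ≠ 0 → ∀ (x : Fin 3 → K) (S : Finset (DV k K)), Crv G d x S →
  aeval x Ψ ≠ 0 → (∃ i, x i ∉ Set.range (algebraMap k K)) →
  1 ≤ canDeg D + S.card ∧ deg k x ≤ B * (canDeg D + S.card)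

/-- FBG: the same for arbitrary homogeneous coordinates and for curves in a variety with a morphism
(given by forms `P` of degree `m`) to the complement of the smooth plane curve; the coordinates
`y` of the curve are arbitrary, outside `S` the curve lies in the open set where the morphism is
defined and maps to the complement -/
def T_FBG : Prop := ∀ (k : Type) [Field k] [IsAlgClosed k] [CharZero k] (d : ℕ)
  (G : MvPolynomial (Fin 3) k), 50 ≤ d → G.IsHomogeneous d →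
  (∀ a : Fin 3 → k, (∀ i, eval a (pderiv i G) = 0) → a = 0) → ∃ (B N : ℕ)
  (Ψ : MvPolynomial (Fin 3) k), Ψ ≠ 0 ∧ Ψ.IsHomogeneous N ∧
  ∀ (n m : ℕ) (P : Fin 3 → MvPolynomial (Fin n) k), (∀ i, (P i).IsHomogeneous m) →
  ∀ (K : Type) [Field K] [Algebra k K] [Algebra.EssFiniteType k K], Algebra.trdeg k K = 1 →
  ∀ (D : Derivation k K K), D ≠ 0 → ∀ (y : Fin n → K) (S : Finset (DV k K)),
  (∀ v : DV k K, v ∉ S → ∃ j, y j ≠ 0 ∧ (∀ i, y i ≠ 0 → v.ord (y j) ≤ v.ord (y i)) ∧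
    (∃ i, aeval y (P i) ≠ 0 ∧ v.ord (aeval y (P i)) = m * v.ord (y j)) ∧
    v.ord (aeval (fun i => aeval y (P i)) G) = d * m * v.ord (y j)) →
  aeval (fun i => aeval y (P i)) G ≠ 0 → aeval (fun i => aeval y (P i)) Ψ ≠ 0 →
  (∃ i j, aeval y (P j) ≠ 0 ∧ aeval y (P i) / aeval y (P j) ∉ Set.range (algebraMap k K)) →
  1 ≤ canDeg D + S.card ∧
  ∀ j, aeval y (P j) ≠ 0 →
    deg k (fun i => aeval y (P i) / aeval y (P j)) ≤ B * (canDeg D + S.card)

end Pool.Agent.H84.SL
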