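import Pool.Agent.H84.SL.Targets
import Pool.Agent.H84.SM.FinalR
import Pool.Agent.H30.AX.FI4

/-!
# MP_70ba79_ag: affine varieties with a generically finite morphism to the complement of a smooth
plane curve
-/

set_option autoImplicit false

namespace Pool.Agent.H84.SL

open MvPolynomial SC Pool.Agent.H27.LV Pool.Agent.H84.SM Pool.Agent.H30.AX

/-- XGF: Lang-Vojta for the affine varieties which are generically finite over the complement of a
smooth plane curve -/
def T_XGF : Prop := ∀ (k : Type) [Field k] [IsAlgClosed k] [CharZero k]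
  (G : MvPolynomial (Fin 3) k) (d : ℕ), 50 ≤ d → Smooth G d →
  ∀ (σ : Type) [Fintype σ] (P : Ideal (MvPolynomial σ k)) (φ : Fin 3 → MvPolynomial σ k),
  P.IsPrime → (∀ (N : ℕ) (H : MvPolynomial (Fin 3) k), H ≠ 0 → H.IsHomogeneous N →
    aeval φ H ∉ P) → GenFinite (n := 2) P φ →
  Ideal.span {aeval φ G} ⊔ P = Ideal.span (Set.range φ) ^ d ⊔ P →
  ∃ (h : MvPolynomial σ k) (B : ℕ), h ∉ P ∧
    DegreeBound k (P : Set (MvPolynomial σ k)) h (fun χ => B * χ)

theorem pf_XGF (hFB : T_FB) (hDC3 : T_DC3) : T_XGF := by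
  intro k _ _ _ G d hd hG σ _ P φ hP hdom hgen hunit
  classical
  obtain ⟨B, N, Ψ, hΨ, hΨh, hB⟩ := hFB k G d hd hG
  have hG0 : G ≠ 0 := by
    rintro rfl
    have h1 := hG.2 1 (fun i => by simp)
    exact one_ne_zero (congrFun h1 0)
  choose D e c he hc hlead hrel using hgen
  refine ⟨aeval φ G * aeval φ Ψ * ∏ s, aeval φ (c s (e s)), (∑ s, D s) * B, ?_, ?_⟩
  · refine hP.mul_notMem (hP.mul_notMem (hdom d G hG0 hG.1) (hdom N Ψ hΨ hΨh)) ?_
    rw [Ideal.IsPrime.prod_mem_iff]
    push Not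
    exact fun s _ => hlead s
  intro K _ _ _ htr S z hPz hreg hnc hh D0 hD0
  rw [map_mul, map_mul, map_prod, mul_ne_zero_iff, mul_ne_zero_iff,
    Finset.prod_ne_zero_iff] at hh
  obtain ⟨⟨hGz, hΨz⟩, hL⟩ := hh
  obtain ⟨Z, hZ⟩ : ∃ Z : Fin 3 → K, Z = fun j => aeval z (φ j) := ⟨_, rfl⟩
  have hcomp : ∀ g : MvPolynomial (Fin 3) k, aeval z (aeval φ g) = aeval Z g := fun g => by
    have h : ((aeval z : MvPolynomial σ k →ₐ[k] K).comp (aeval φ)) = aeval Z := by
      refine MvPolynomial.algHom_ext fun i => ?_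
      simp [hZ]
    rw [← h]
    rfl
  rw [hcomp] at hGz hΨz
  have h0 : ∃ j, Z j ≠ 0 := by
    by_contra h
    push Not at h
    apply hGz
    have h1 : Z = fun i => (0 : K) * Z i := by
      funext i
      rw [h i, mul_zero]
    rw [h1, Pool.Agent.H84.SM.aeval_smul_hom G d hG.1, zero_pow (by omega), zero_mul]
  obtain ⟨j0, hZ0'⟩ := h0
  obtain ⟨z', hz'⟩ : ∃ z' : Fin 3 → K, z' = fun j => (Z j0)⁻¹ * Z j := ⟨_, rfl⟩
  have hform : ∀ (g : MvPolynomial (Fin 3) k) (N : ℕ), g.IsHomogeneous N →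
      aeval z' g = ((Z j0)⁻¹) ^ N * aeval Z g := fun g N hg => by
    rw [hz']
    exact Pool.Agent.H84.SM.aeval_smul_hom g N hg _ _
  have hone : z' j0 = 1 := by
    rw [hz']
    exact inv_mul_cancel₀ hZ0'
  have hinv : ∀ N : ℕ, ((Z j0)⁻¹) ^ N ≠ 0 := fun N => pow_ne_zero _ (inv_ne_zero hZ0')
  -- the relations
  have hL' : ∀ s, aeval z' (c s (e s)) ≠ 0 := by
    intro s
    rw [hform _ _ (hc s _)]
    refine mul_ne_zero (hinv _) ?_
    rw [← hcomp]
    exact hL s (Finset.mem_univ s)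
  have hrel' : ∀ s, ∑ l ∈ Finset.range (e s + 1), aeval z' (c s l) * z s ^ l = 0 := by
    intro s
    have h1 := hPz _ (hrel s)
    rw [map_sum] at h1
    have h2 : ∑ l ∈ Finset.range (e s + 1), aeval z' (c s l) * z s ^ l =
        ((Z j0)⁻¹) ^ D s * ∑ l ∈ Finset.range (e s + 1), aeval z (aeval φ (c s l) * X s ^ l) := by
      rw [Finset.mul_sum]
      refine Finset.sum_congr rfl fun l _ => ?_
      rw [hform _ _ (hc s l), map_mul, map_pow, aeval_X, ← hcomp]
      ring
    rw [h2, h1, mul_zero]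
  obtain ⟨hdeg, hconst⟩ := hDC3 k K htr σ 2 D e c z z' he hc ⟨j0, hone⟩ hL' hrel'
  have hnc' : ∃ j, z' j ∉ Set.range (algebraMap k K) := by
    by_contra hcon
    push Not at hcon
    obtain ⟨j, hj⟩ := hnc
    exact hj (hconst hcon j)
  -- the curve `z'`
  have hcrv : Crv G d z' S := by
    refine ⟨⟨j0, hone⟩, ?_, ?_⟩
    · rw [hform G d hG.1]
      exact mul_ne_zero (hinv _) hGz
    intro v hv
    have hzv := hreg v hv
    obtain ⟨j1, hj1, hj1'⟩ := Finset.exists_min_image
      (Finset.univ.filter fun j => Z j ≠ 0) (fun j => v.ord (Z j))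
      ⟨j0, Finset.mem_filter.2 ⟨Finset.mem_univ _, hZ0'⟩⟩
    have hj1 : Z j1 ≠ 0 := (Finset.mem_filter.1 hj1).2
    have hle : ∀ j, ge v (v.ord (Z j1)) (Z j) := by
      intro j
      by_cases h0 : Z j = 0
      · exact Or.inl h0
      · exact Or.inr (hj1' j (Finset.mem_filter.2 ⟨Finset.mem_univ _, h0⟩))
    have hord : ∀ j, Z j ≠ 0 → v.ord (z' j) = -(v.ord (Z j0)) + v.ord (Z j) := by
      intro j hj
      rw [hz']
      change v.ord ((Z j0)⁻¹ * Z j) = _
      rw [v.ord_mul' (inv_ne_zero hZ0') hj, v.ord_inv]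
    have hpole : (poleOrder v z' : ℤ) = v.ord (Z j0) - v.ord (Z j1) := by
      have h0 := (hle j0).resolve_left hZ0'
      have hub : poleOrder v z' ≤ (v.ord (Z j0) - v.ord (Z j1)).toNat := by
        unfold poleOrder
        refine Finset.sup_le fun j _ => ?_
        by_cases hj : Z j = 0
        · have h1 : z' j = 0 := by rw [hz']; simp [hj]
          rw [h1, v.ord_zero]
          simp
        · have h1 := hord j hj
          have h2 := (hle j).resolve_left hj
          omega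
      have hlb : (-(v.ord (z' j1))).toNat ≤ poleOrder v z' :=
        Finset.le_sup (f := fun i => (-(v.ord (z' i))).toNat) (Finset.mem_univ j1)
      have h3 := hord j1 hj1
      omega
    -- orders of the ideals
    have hI : Ideal.span (Set.range φ) ≤ ordIdeal v z hzv (v.ord (Z j1)) := by
      rw [Ideal.span_le]
      rintro _ ⟨j, rfl⟩
      have h := hle j
      have h6 : aeval z (φ j) = Z j := by rw [hZ]
      rw [SetLike.mem_coe, mem_ordIdeal, h6]
      exact h
    have hId : Ideal.span (Set.range φ) ^ d ⊔ P ≤ ordIdeal v z hzv (d * v.ord (Z j1)) := by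
      refine sup_le ((Ideal.pow_right_mono hI d).trans (ordIdeal_pow v z hzv _ d)) ?_
      exact le_ordIdeal v z hzv (fun p hp => hPz p hp) _
    have h1 : (d : ℤ) * v.ord (Z j1) ≤ v.ord (aeval Z G) := by
      have h2 : aeval φ G ∈ Ideal.span {aeval φ G} ⊔ P :=
        Ideal.mem_sup_left (Ideal.mem_span_singleton_self _)
      rw [hunit] at h2
      have h3 := hId h2
      rw [mem_ordIdeal, hcomp] at h3
      exact h3.resolve_left hGz
    have h2 : v.ord (aeval Z G) ≤ (d : ℤ) * v.ord (Z j1) := by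
      have h3 : Ideal.span {aeval φ G} ⊔ P ≤ ordIdeal v z hzv (v.ord (aeval Z G)) := by
        refine sup_le ?_ (le_ordIdeal v z hzv (fun p hp => hPz p hp) _)
        rw [Ideal.span_le]
        rintro _ rfl
        rw [SetLike.mem_coe, mem_ordIdeal, hcomp]
        exact ge_of_ord v
      have h4 : φ j1 ^ d ∈ Ideal.span {aeval φ G} ⊔ P := by
        rw [hunit]
        exact Ideal.mem_sup_left (Ideal.pow_mem_pow (Ideal.subset_span (Set.mem_range_self j1)) d)
      have h5 := h3 h4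
      rw [mem_ordIdeal, map_pow] at h5
      have h6 : aeval z (φ j1) = Z j1 := by rw [hZ]
      rw [h6] at h5
      have h7 := h5.resolve_left (pow_ne_zero _ hj1)
      rwa [v.ord_pow] at h7
    rw [hform G d hG.1, v.ord_mul' (hinv _) hGz, v.ord_pow, v.ord_inv, hpole]
    have h3 : v.ord (aeval Z G) = (d : ℤ) * v.ord (Z j1) := le_antisymm h2 h1
    rw [h3]
    ring
  have hmain := (hB K htr D0 hD0 z' S hcrv (by
    rw [hform Ψ N hΨh]
    exact mul_ne_zero (hinv _) hΨz) hnc').2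
  have h1 : (deg k z : ℤ) ≤ ((∑ s, D s : ℕ) : ℤ) * deg k z' := by exact_mod_cast hdeg
  push_cast at h1 ⊢
  calc (deg k z : ℤ) ≤ (∑ s, (D s : ℤ)) * deg k z' := h1
    _ ≤ (∑ s, (D s : ℤ)) * (B * (canDeg D0 + S.card)) :=
        mul_le_mul_of_nonneg_left hmain (Finset.sum_nonneg fun _ _ => by positivity)
    _ = _ := by ring

end Pool.Agent.H84.SL
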